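import Mathlib
import Pool.Agent.H1.ApproxField

set_option autoImplicit false

namespace Pool.Agent.Results.MP_a5fc84_co.Cover

open Pointwise

universe u

/-- Approximate subfield (finite or infinite). -/
def IsApproxSubfield {F : Type u} [Field F] (X : Set F) : Prop :=
  (0 : F) ∈ X ∧ X = -X ∧ (1 : F) ∈ X ∧ X \ {0} = (X \ {0})⁻¹ ∧
    ∃ E : Set F, E.Finite ∧ X * X + X ⊆ (E * X) ∩ (E + X)

/-- Products of at most `n` elements of `X`. -/
def prods {F : Type u} [Field F] (n : ℕ) (X : Set F) : Set F := ⋃ k ∈ Set.Iic n, X ^ k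

/-- `S_n(X)`: sums of at most `n` terms, each a product of at most `n` elements of `X`. -/
def S {F : Type u} [Field F] (n : ℕ) (X : Set F) : Set F := ⋃ k ∈ Set.Iic n, k • prods n X

/-- `Alg_n(X)`. -/
def Alg {F : Type u} [Field F] (n : ℕ) (X : Set F) : Set F :=
  {z | ∃ a ∈ S n X, ∃ b ∈ S n X, b ≠ 0 ∧ z = a / b}

theorem result :
    ∀ (F : Type u) [Field F] (X : Set F), IsApproxSubfield X → ∀ n : ℕ, 1 ≤ n →
      ∃ T : Set F, T.Finite ∧ Alg n X ⊆ T + X := by
  intro F _ X ⟨h0, hneg, h1, hinv, E, hE, hEX⟩ n _
  by_cases hfin : X.Finite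
  · have hp : (prods n X).Finite := (Set.finite_Iic n).biUnion fun k _ => by
      clear * - hfin
      induction k with
      | zero => rw [pow_zero]; exact Set.finite_one
      | succ k ih => rw [pow_succ]; exact ih.mul hfin
    have hs : (S n X).Finite := (Set.finite_Iic n).biUnion fun k _ => by
      clear * - hp
      induction k with
      | zero => rw [zero_nsmul]; exact Set.finite_zero
      | succ k ih => rw [succ_nsmul]; exact ih.add hp
    refine ⟨S n X / S n X, hs.div hs, ?_⟩
    rintro _ ⟨a, ha, b, hb, -, rfl⟩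
    exact ⟨a / b, Set.div_mem_div ha hb, 0, h0, add_zero _⟩
  · have h := Pool.Agent.H1.ApproxField.main X E
      (fun x hx => by rw [hneg]; simpa using hx) h0 h1
      (fun x hx => by
        by_cases hx0 : x = 0
        · rw [hx0, inv_zero]; exact h0
        · have : x ∈ (X \ {0})⁻¹ := hinv ▸ ⟨hx, hx0⟩
          exact this.1)
      hE (fun x hx => (hEX hx).1) (fun x hx => (hEX hx).2) hfin
    refine h.mono ?_
    have hp : prods n X ⊆ Subfield.closure X := by
      refine Set.iUnion₂_subset fun k _ => ?_
      clear * -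
      induction k with
      | zero => rw [pow_zero]; rintro _ rfl; exact (Subfield.closure X).one_mem
      | succ k ih =>
        rw [pow_succ]
        rintro _ ⟨a, ha, b, hb, rfl⟩
        exact (Subfield.closure X).mul_mem (ih ha) (Subfield.subset_closure hb)
    have hs : S n X ⊆ Subfield.closure X := by
      refine Set.iUnion₂_subset fun k _ => ?_
      clear * - hp
      induction k with
      | zero => rw [zero_nsmul]; rintro _ rfl; exact (Subfield.closure X).zero_mem
      | succ k ih =>
        rw [succ_nsmul]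
        rintro _ ⟨a, ha, b, hb, rfl⟩
        exact (Subfield.closure X).add_mem (ih ha) (hp hb)
    rintro _ ⟨a, ha, b, hb, -, rfl⟩
    exact (Subfield.closure X).div_mem (hs ha) (hs hb)

end Pool.Agent.Results.MP_a5fc84_co.Cover
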